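import Mathlib

namespace Pool.Agent.H.MP_4f2529_ag

/-- not in the Apery set -/
def Bad (T S : AddSubmonoid ℕ) (d x y : ℕ) : Prop :=
  (d ≤ x ∧ x - d ∈ T) ∨ (d ≤ y ∧ y - d ∈ S)

/-- generators -/
def Gen (T S : AddSubmonoid ℕ) (d a : ℕ) : Prop := a ≤ d ∧ a ∈ T ∧ d - a ∈ S

/-- generated monoid -/
def Cl (T S : AddSubmonoid ℕ) (d : ℕ) : AddSubmonoid (ℕ × ℕ) :=
  AddSubmonoid.closure {p | ∃ a, Gen T S d a ∧ p = (a, d - a)}

lemma cl1 {T S : AddSubmonoid ℕ} {d a x y : ℕ} (h : Gen T S d a) (hx : x = a) (hy : x + y = d) :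
    (x, y) ∈ Cl T S d :=
  AddSubmonoid.subset_closure ⟨a, h, by rw [Prod.ext_iff]; constructor <;> simp <;> omega⟩

lemma cl2 {T S : AddSubmonoid ℕ} {d a b x y : ℕ} (h : Gen T S d a) (h' : Gen T S d b)
    (hx : x = a + b) (hy : x + y = 2 * d) : (x, y) ∈ Cl T S d := by
  have h1 := h.1
  have h2 := h'.1
  have := add_mem (cl1 (y := d - a) h rfl (by omega)) (cl1 (y := d - b) h' rfl (by omega))
  convert this using 1
  rw [Prod.ext_iff]; constructor <;> simp <;> omega

lemma cl3 {T S : AddSubmonoid ℕ} {d a b c x y : ℕ} (h : Gen T S d a) (h' : Gen T S d b)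
    (h'' : Gen T S d c) (hx : x = a + b + c) (hy : x + y = 3 * d) : (x, y) ∈ Cl T S d := by
  have h1 := h.1
  have h2 := h'.1
  have h3 := h''.1
  have := add_mem (cl2 (y := 2 * d - (a + b)) h h' rfl (by omega))
    (cl1 (y := d - c) h'' rfl (by omega))
  convert this using 1
  rw [Prod.ext_iff]; constructor <;> simp <;> omega

theorem comb_aux (T : AddSubmonoid ℕ) (P : Finset ℕ) (F f0 W d M N : ℕ) (c : ℕ → ℕ)
    (hF : F ∈ P) (hf0 : f0 ∈ P) (hmin : ∀ f ∈ P, f0 ≤ f) (hbig : ∀ x, F < x → x ∈ T)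
    (hP : ∀ f ∈ P, f ∉ T) (hgap : ∀ g, g ∉ T → ∃ f ∈ P, ∃ a ∈ T, g + a = f)
    (hc1 : ∀ g ≤ F, 4 * W ≤ c g ∧ c g + 10 * F + 10 ≤ 5 * W)
    (hc2 : ∀ g g', g = g' ∨ c g + 2 * F < c g' ∨ c g' + 2 * F < c g)
    (hM : M = 5 * W) (hd : d + 1 = 2 * M + f0) (hN : N + M = d) :
    ∃ S : AddSubmonoid ℕ, F < d ∧ (∀ b, d ≤ b → b ∈ S) ∧ (∀ f ∈ P, d - f ∉ S) ∧
      ∀ x y, x ∈ T → y ∈ S → d ∣ x + y → ¬ Bad T S d x y → (x, y) ∈ Cl T S d ∧
        ((∃ f ∈ P, x = d + f ∧ y = 2 * d - f) ∨
          ∃ a, Gen T S d a ∧ ¬ Bad T S d (x + a) (y + (d - a))) := by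
  have hle : ∀ g, g ∉ T → g ≤ F := fun g hg => by
    by_contra h; exact hg (hbig g (by omega))
  have hPF : ∀ f ∈ P, 1 ≤ f ∧ f ≤ F := fun f hf =>
    ⟨Nat.pos_of_ne_zero (by rintro rfl; exact hP 0 hf T.zero_mem), hle f (hP f hf)⟩
  have h0 := hc1 0 (Nat.zero_le _)
  have hf0' := hPF f0 hf0
  let S : AddSubmonoid ℕ :=
    { carrier := {b | b = 0 ∨ (∃ g, g ∉ T ∧ g ∉ P ∧ b = c g) ∨
        (M ≤ b ∧ (∀ f ∈ P, b + f ≠ d) ∧ ∀ f ∈ P, ∀ g, g ∉ T → g ∉ P → b + f + c g ≠ d)}
      zero_mem' := Or.inl rfl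
      add_mem' := by
        rintro a b (rfl | ⟨g, hg, hg', rfl⟩ | ⟨h1, h2, h3⟩) hb
        · simpa using hb
        · have := hc1 g (hle g hg)
          rcases hb with rfl | ⟨g', hg2, -, rfl⟩ | ⟨h1, h2, h3⟩
          · exact Or.inr (Or.inl ⟨g, hg, hg', rfl⟩)
          · have := hc1 g' (hle g' hg2)
            refine Or.inr (Or.inr ⟨by omega, fun f hf => ?_, fun f hf g'' hg3 _ => ?_⟩)
            · have := hPF f hf; omega
            · have := hc1 g'' (hle g'' hg3); omega
          · refine Or.inr (Or.inr ⟨by omega, fun f hf => ?_, fun f hf g'' hg3 _ => ?_⟩)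
            · have := h3 f hf g hg hg'; omega
            · have := hc1 g'' (hle g'' hg3); omega
        · rcases hb with rfl | ⟨g, hg, hg', rfl⟩ | ⟨h4, h5, h6⟩
          · exact Or.inr (Or.inr ⟨h1, h2, h3⟩)
          · have := hc1 g (hle g hg)
            refine Or.inr (Or.inr ⟨by omega, fun f hf => ?_, fun f hf g'' hg3 _ => ?_⟩)
            · have := h3 f hf g hg hg'; omega
            · have := hc1 g'' (hle g'' hg3); omega
          · refine Or.inr (Or.inr ⟨by omega, fun f hf => ?_, fun f hf g'' hg3 _ => ?_⟩)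
            · have := hmin f hf; omega
            · have := hmin f hf; omega }
  have hS : ∀ b, b ∈ S ↔ (b = 0 ∨ (∃ g, g ∉ T ∧ g ∉ P ∧ b = c g) ∨
      (M ≤ b ∧ (∀ f ∈ P, b + f ≠ d) ∧ ∀ f ∈ P, ∀ g, g ∉ T → g ∉ P → b + f + c g ≠ d)) :=
    fun b => Iff.rfl
  have hSbig : ∀ b, d ≤ b → b ∈ S := fun b hb =>
    (hS b).2 (Or.inr (Or.inr ⟨by omega, fun f hf => by have := hPF f hf; omega,
      fun f hf g _ _ => by have := hPF f hf; omega⟩))
  have hSP : ∀ f ∈ P, d - f ∉ S := by
    intro f hf h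
    have := hPF f hf
    rcases (hS _).1 h with h | ⟨g, hg, -, h⟩ | ⟨-, h, -⟩
    · omega
    · have := hc1 g (hle g hg); omega
    · exact h f hf (by omega)
  have hmid : ∀ a, a ∈ T → a ≤ N → (∀ f ∈ P, ∀ g, g ∉ T → g ∉ P → a ≠ f + c g) → Gen T S d a := by
    intro a ha h1 h2
    refine ⟨by omega, ha, (hS _).2 (Or.inr (Or.inr ⟨by omega, fun f hf h => ?_,
      fun f hf g hg hg' h => h2 f hf g hg hg' (by omega)⟩))⟩
    have : a = f := by omega
    exact hP f hf (this ▸ ha)
  have hsmall : ∀ a, a ∈ T → a ≤ 4 * W → Gen T S d a := fun a ha h =>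
    hmid a ha (by omega) fun f hf g hg _ => by
      have := hc1 g (hle g hg); have := hPF f hf; omega
  have hhigh : ∀ a, a ≤ N → 5 * W ≤ a + 9 * F → Gen T S d a := fun a h1 h2 =>
    hmid a (hbig a (by omega)) h1 fun f hf g hg _ => by
      have := hc1 g (hle g hg); have := hPF f hf; omega
  have hcg : ∀ g, g ∉ T → g ∉ P → Gen T S d (d - c g) := fun g hg hg' => by
    have := hc1 g (hle g hg)
    exact ⟨by omega, hbig _ (by omega), (hS _).2 (Or.inr (Or.inl ⟨g, hg, hg', by omega⟩))⟩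
  have hafter : ∀ g, g ∉ T → ∀ a, c g + F < a → a ≤ c g + 2 * F → Gen T S d a := by
    intro g hg a h1 h2
    have := hc1 g (hle g hg)
    refine hmid a (hbig a (by omega)) (by omega) fun f hf g' _ _ => ?_
    have := hPF f hf
    rcases hc2 g g' with rfl | h | h <;> omega
  have htop : ∀ f ∈ P, ∀ x y, x = d + f → x + y = 3 * d → ¬ Bad T S d x y := by
    intro f hf x y hx hy h
    have := hPF f hf
    rcases h with ⟨-, h⟩ | ⟨-, h⟩
    · exact hP f hf (by rwa [show x - d = f by omega] at h)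
    · exact hSP f hf (by rwa [show y - d = d - f by omega] at h)
  have hgapS : ∀ s, 0 < s → s < M → (∀ g, g ∉ T → g ∉ P → s ≠ c g) → s ∉ S := by
    intro s h1 h2 h3 h
    rcases (hS _).1 h with h | ⟨g, hg, hg', h⟩ | ⟨h, -⟩
    · omega
    · exact h3 g hg hg' h
    · omega
  have hdeg2 : ∀ x y, x < d → x + y = 2 * d → d - x ∉ S → ¬ Bad T S d x y := by
    intro x y h1 h2 h3 h
    rcases h with ⟨h, -⟩ | ⟨-, h⟩
    · omega
    · exact h3 (by rwa [show y - d = d - x by omega] at h)
  refine ⟨S, by omega, hSbig, hSP, fun x y hx hy hdvd hb => ?_⟩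
  have hb1 : d ≤ x → x - d ∉ T := fun h h' => hb (Or.inl ⟨h, h'⟩)
  have hb2 : d ≤ y → y - d ∉ S := fun h h' => hb (Or.inr ⟨h, h'⟩)
  have hx1 : x ≤ d + F := by
    by_contra h; exact hb1 (by omega) (hbig _ (by omega))
  have hy1 : y < 2 * d := by
    by_contra h; exact hb2 (by omega) (hSbig _ (by omega))
  have hxd : x ≠ d := by rintro rfl; exact hb1 le_rfl (by simp)
  have hyd : y ≠ d := by rintro rfl; exact hb2 le_rfl (by simp)
  obtain ⟨q, hq⟩ := hdvd
  have hq4 : q < 4 := by
    by_contra h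
    have : d * 4 ≤ d * q := Nat.mul_le_mul_left d (by omega)
    omega
  interval_cases q
  · obtain ⟨rfl, rfl⟩ : x = 0 ∧ y = 0 := by omega
    refine ⟨zero_mem _, Or.inr ⟨2 * W, hsmall _ (hbig _ (by omega)) (by omega), ?_⟩⟩
    rintro (⟨h, -⟩ | ⟨h, -⟩) <;> omega
  · have hgen : Gen T S d x := ⟨by omega, hx, by rwa [show d - x = y by omega]⟩
    refine ⟨cl1 hgen rfl (by omega), Or.inr ?_⟩
    have hy2 : 4 * W ≤ y := by
      rcases (hS _).1 hy with h | ⟨g, hg, -, h⟩ | ⟨h, -⟩
      · omega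
      · have := hc1 g (hle g hg); omega
      · omega
    by_cases h1 : y + 2 ≤ 8 * W
    · refine ⟨4 * W - 1, hsmall _ (hbig _ (by omega)) (by omega), hdeg2 _ _ (by omega) (by omega)
        (hgapS _ (by omega) (by omega) fun g hg _ => ?_)⟩
      have := hc1 g (hle g hg); omega
    · by_cases h2 : ∃ g, g ∉ T ∧ M - x = c g
      · obtain ⟨g, hg, h2⟩ := h2
        have := hc1 g (hle g hg)
        refine ⟨N - 1, hhigh _ (by omega) (by omega), hdeg2 _ _ (by omega) (by omega)
          (hgapS _ (by omega) (by omega) fun g' _ _ => ?_)⟩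
        rcases hc2 g g' with rfl | h | h <;> omega
      · refine ⟨N, hhigh _ (by omega) (by omega), hdeg2 _ _ (by omega) (by omega)
          (hgapS _ (by omega) (by omega) fun g hg _ h => h2 ⟨g, hg, by omega⟩)⟩
  · rcases lt_or_gt_of_ne hxd with h1 | h1
    · have h2 : d - x ∉ S := by
        have := hb2 (by omega)
        rwa [show y - d = d - x by omega] at this
      by_cases h3 : ∃ f ∈ P, ∃ g, g ∉ T ∧ g ∉ P ∧ x = f + c g
      · obtain ⟨f, hf, g, hg, hg', h3⟩ := h3
        have := hc1 g (hle g hg)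
        have := hPF f hf
        exact ⟨cl2 (hsmall (2 * W) (hbig _ (by omega)) (by omega))
          (hsmall (x - 2 * W) (hbig _ (by omega)) (by omega)) (by omega) (by omega),
          Or.inr ⟨_, hcg g hg hg', htop f hf _ _ (by omega) (by omega)⟩⟩
      · push Not at h3
        have h4 : N < x := by
          by_contra h
          exact h2 (hmid x hx (by omega) h3).2.2
        have h5 : ∀ g, g ∉ T → g ∉ P → d - x ≠ c g := fun g hg hg' h =>
          h2 ((hS _).2 (Or.inr (Or.inl ⟨g, hg, hg', h⟩)))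
        constructor
        · by_cases h6 : x - N ≤ F
          · exact cl2 (hhigh (N - (F + 1)) (by omega) (by omega))
              (hsmall (x - N + (F + 1)) (hbig _ (by omega)) (by omega)) (by omega) (by omega)
          · by_cases h7 : ∃ f ∈ P, ∃ g, g ∉ T ∧ x - N = f + c g
            · obtain ⟨f, hf, g, hg, h7⟩ := h7
              have := hPF f hf
              exact cl2 (hhigh (N - F) (by omega) (by omega))
                (hafter g hg (x - N + F) (by omega) (by omega)) (by omega) (by omega)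
            · push Not at h7
              exact cl2 (hhigh N (by omega) (by omega))
                (hmid (x - N) (hbig _ (by omega)) (by omega) fun f hf g hg _ => h7 f hf g hg)
                (by omega) (by omega)
        · right
          by_cases h6 : d - x + F ≤ 4 * W
          · exact ⟨_, hsmall (d - x + F) (hbig _ (by omega)) h6,
              htop F hF _ _ (by omega) (by omega)⟩
          · by_cases h7 : ∃ f ∈ P, ∃ g, g ∉ T ∧ g ∉ P ∧ d - x + f0 = f + c g
            · obtain ⟨f, hf, g, hg, hg', h7⟩ := h7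
              have := hPF f hf
              have := hmin f hf
              have := h5 g hg hg'
              have := hc1 g (hle g hg)
              exact ⟨_, hafter g hg (d - x + F) (by omega) (by omega),
                htop F hF _ _ (by omega) (by omega)⟩
            · push Not at h7
              exact ⟨_, hmid (d - x + f0) (hbig _ (by omega)) (by omega) h7,
                htop f0 hf0 _ _ (by omega) (by omega)⟩
    · obtain ⟨g, rfl⟩ : ∃ g, x = d + g := ⟨x - d, by omega⟩
      have hg : g ∉ T := by simpa using hb1 (by omega)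
      have hg' : g ∉ P := fun h => hSP g h (by rwa [show d - g = y by omega])
      have := hc1 g (hle g hg)
      constructor
      · refine cl2 (hcg g hg hg') (hmid (g + c g) (hbig _ (by omega)) (by omega)
          fun f hf g' _ _ h => ?_) (by omega) (by omega)
        have := hPF f hf
        rcases hc2 g g' with rfl | h' | h'
        · exact hg' (by rwa [show g = f by omega])
        · omega
        · omega
      · obtain ⟨f, hf, a, ha, h⟩ := hgap g hg
        have := hPF f hf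
        exact Or.inr ⟨a, hsmall a ha (by omega), htop f hf _ _ (by omega) (by omega)⟩
  · obtain ⟨g, rfl⟩ : ∃ g, x = d + g := ⟨x - d, by omega⟩
    have hg : g ∉ T := by simpa using hb1 (by omega)
    have hg' : g ∈ P := by
      by_contra h
      apply hb2 (by omega)
      refine (hS _).2 (Or.inr (Or.inr ⟨by omega, fun f hf h' => ?_, fun f hf g' hg2 _ => ?_⟩))
      · exact h (by rwa [show g = f by omega])
      · have := hc1 g' (hle g' hg2); omega
    have := hmin g hg'
    exact ⟨cl3 (hhigh N (by omega) (by omega))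
      (hsmall (N - 2 * W) (hbig _ (by omega)) (by omega))
      (hsmall (g - f0 + 1 + 2 * W) (hbig _ (by omega)) (by omega)) (by omega) (by omega),
      Or.inl ⟨g, hg', rfl, by omega⟩⟩

theorem comb (T : AddSubmonoid ℕ) (P : Finset ℕ) (F : ℕ) (hF : F ∈ P)
    (hbig : ∀ x, F < x → x ∈ T)
    (hP : ∀ f ∈ P, f ∉ T) (hgap : ∀ g, g ∉ T → ∃ f ∈ P, ∃ a ∈ T, g + a = f) :
    ∃ (d : ℕ) (S : AddSubmonoid ℕ), F < d ∧ (∀ b, d ≤ b → b ∈ S) ∧ (∀ f ∈ P, d - f ∉ S) ∧
      (∀ x y, x ∈ T → y ∈ S → d ∣ x + y → (x, y) ∈ Cl T S d) ∧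
      ∀ x y, x ∈ T → y ∈ S → d ∣ x + y → ¬ Bad T S d x y →
        ((∃ f ∈ P, x = d + f ∧ y = 2 * d - f) ∨
          ∃ a, Gen T S d a ∧ ¬ Bad T S d (x + a) (y + (d - a))) := by
  set W := (2 * F + 1) * F + 10 * F + 10 with hW
  set f0 := P.min' ⟨F, hF⟩
  obtain ⟨S, h1, h2, h3, h4⟩ := comb_aux T P F f0 W (10 * W + f0 - 1) (5 * W) (5 * W + f0 - 1)
    (fun g => 4 * W + (2 * F + 1) * g) hF (P.min'_mem _) (fun f hf => P.min'_le f hf) hbig hP hgap
    (fun g hg => by
      have := Nat.mul_le_mul_left (2 * F + 1) hg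
      omega)
    (fun g g' => by
      rcases lt_trichotomy g g' with h | h | h
      · have := Nat.mul_le_mul_left (2 * F + 1) (Nat.succ_le_of_lt h)
        rw [Nat.mul_succ] at this
        right; left; omega
      · exact Or.inl h
      · have := Nat.mul_le_mul_left (2 * F + 1) (Nat.succ_le_of_lt h)
        rw [Nat.mul_succ] at this
        right; right; omega) rfl (by omega) (by omega)
  set d := 10 * W + f0 - 1
  refine ⟨d, S, h1, h2, h3, ?_, fun x y hx hy hd hb => (h4 x y hx hy hd hb).2⟩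
  intro x y
  induction h : x + y using Nat.strong_induction_on generalizing x y with
  | _ n ih =>
    intro hx hy hd
    subst h
    by_cases hb : Bad T S d x y
    · rcases hb with ⟨h5, h6⟩ | ⟨h5, h6⟩
      · have h7 := ih (x - d + y) (by omega) (x - d) y rfl h6 hy
          (by rw [show x - d + y = x + y - d by omega]; exact Nat.dvd_sub hd dvd_rfl)
        have h8 : (d, 0) ∈ Cl T S d :=
          cl1 ⟨le_rfl, hbig d h1, by simp⟩ rfl rfl
        convert add_mem h7 h8 using 1
        rw [Prod.ext_iff]; constructor <;> simp; omega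
      · have h7 := ih (x + (y - d)) (by omega) x (y - d) rfl hx h6
          (by rw [show x + (y - d) = x + y - d by omega]; exact Nat.dvd_sub hd dvd_rfl)
        have h8 : (0, d) ∈ Cl T S d :=
          cl1 ⟨Nat.zero_le _, T.zero_mem, h2 _ (by simp)⟩ rfl (by simp)
        convert add_mem h7 h8 using 1
        rw [Prod.ext_iff]; constructor <;> simp; omega
    · exact (h4 x y hx hy hd hb).1

end Pool.Agent.H.MP_4f2529_ag
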