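import Mathlib

open CategoryTheory CategoryTheory.Abelian MvPolynomial

namespace Pool.Agent.H.MP_4f2529_ag

/-- The pseudo-Frobenius numbers of `T`. -/
def PF (T : AddSubmonoid ℕ) : Set ℤ :=
  {x | (¬ ∃ n ∈ T, (n : ℤ) = x) ∧ ∀ s ∈ T, s ≠ 0 → ∃ n ∈ T, (n : ℤ) = x + s}

/-- The homogeneous coordinate ring `k[u^a v^(d-a) : a ∈ A] ⊆ k[u,v]`. -/
noncomputable def coordRing (k : Type) [Field k] (A : Finset ℕ) (d : ℕ) :
    Subalgebra k (MvPolynomial (Fin 2) k) :=
  Algebra.adjoin k {f | ∃ a ∈ A, f = X 0 ^ a * X 1 ^ (d - a)}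

/-- The irrelevant maximal ideal, generated by the coordinates `u^a v^(d-a)`. -/
noncomputable def irr (k : Type) [Field k] (A : Finset ℕ) (d : ℕ) : Ideal (coordRing k A d) :=
  Ideal.span {x | ∃ a ∈ A, (x : MvPolynomial (Fin 2) k) = X 0 ^ a * X 1 ^ (d - a)}

/-- A local ring whose depth equals its dimension. -/
def DepthEqDim (S : Type) [CommRing S] [IsLocalRing S] : Prop :=
  ∃ rs : List S, (∀ r ∈ rs, r ∈ IsLocalRing.maximalIdeal S) ∧
    RingTheory.Sequence.IsRegular S rs ∧ (rs.length : WithBot ℕ∞) = ringKrullDim S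

/-- Cohen-Macaulay ring: depth equals dimension at every maximal ideal. -/
def IsCM (R : Type) [CommRing R] : Prop :=
  IsNoetherianRing R ∧ ∀ (𝔪 : Ideal R) [𝔪.IsMaximal], DepthEqDim (Localization.AtPrime 𝔪)

/-- The length of `Ext^2_R(R/m, R)`. -/
noncomputable def ext2Length (R : Type) [CommRing R] (𝔪 : Ideal R) : ℕ∞ :=
  Module.length R (Ext (ModuleCat.of R (R ⧸ 𝔪)) (ModuleCat.of R R) 2)

/-- The Cohen-Macaulay type of the two-dimensional ring `k[C]`: the length of `Ext^2(k, k[C])`. -/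
noncomputable def cmType (k : Type) [Field k] (A : Finset ℕ) (d : ℕ) : ℕ∞ :=
  ext2Length (coordRing k A d) (irr k A d)

end Pool.Agent.H.MP_4f2529_ag
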