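import Mathlib

open CategoryTheory CategoryTheory.Abelian MvPolynomial

namespace Pool.Agent.H.MP_4f2529_ag

section ext
variable {R : Type} [CommRing R] (m : Ideal R)

/-- Ext from the quotient -/
abbrev EX (N : Type) [AddCommGroup N] [Module R N] (n : ℕ) : Type :=
  Ext (ModuleCat.of R (R ⧸ m)) (ModuleCat.of R N) n

/-- Ext zero is Hom -/
noncomputable def ext0 (N : Type) [AddCommGroup N] [Module R N] :
    EX m N 0 ≃ₗ[R] ((R ⧸ m) →ₗ[R] N) :=
  Ext.linearEquiv₀.trans ModuleCat.homLinearEquiv

lemma smul_EX {N : Type} [AddCommGroup N] [Module R N] {n : ℕ} {r : R} (hr : r ∈ m)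
    (x : EX m N n) : r • x = 0 := by
  have h : r • 𝟙 (ModuleCat.of R (R ⧸ m)) = 0 := by
    ext
    simpa [← Ideal.Quotient.mk_eq_mk, ← Submodule.Quotient.mk_smul] using hr
  rw [← Ext.mk₀_id_comp x, ← Ext.smul_comp, ← Ext.mk₀_smul, h, Ext.mk₀_zero, Ext.zero_comp]

lemma step {N P : Type} [AddCommGroup N] [Module R N] [AddCommGroup P] [Module R P] {r : R}
    (hr : r ∈ m) (hinj : Function.Injective (r • (LinearMap.id : N →ₗ[R] N))) (g : N →ₗ[R] P)
    (hex : Function.Exact (r • (LinearMap.id : N →ₗ[R] N)) g) (hg : Function.Surjective g)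
    (n : ℕ) : ∃ δ : EX m P n →ₗ[R] EX m N (n + 1), Function.Surjective δ ∧
      (Subsingleton (EX m N n) → Function.Injective δ) := by
  let S := ModuleCat.shortComplexOfCompEqZero _ g hex.linearMap_comp_eq_zero
  have hS : S.ShortExact := ModuleCat.shortComplex_shortExact S hex hinj hg
  refine ⟨hS.extClass.postcompOfLinear R _ rfl, fun x => ?_, fun h => ?_⟩
  · apply Ext.covariant_sequence_exact₁ _ hS x _ rfl
    exact (Ext.smul_eq_comp_mk₀ x r).symm.trans (smul_EX m hr x)
  · rw [injective_iff_map_eq_zero]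
    intro x hx
    obtain ⟨y, rfl⟩ := Ext.covariant_sequence_exact₃ _ hS x rfl hx
    have : y = 0 := h.elim _ _
    rw [this, Ext.zero_comp]

lemma ext0_sub {N : Type} [AddCommGroup N] [Module R N] {r : R} (hr : r ∈ m)
    (hinj : Function.Injective (r • (LinearMap.id : N →ₗ[R] N))) : Subsingleton (EX m N 0) := by
  have : Subsingleton ((R ⧸ m) →ₗ[R] N) := by
    apply subsingleton_of_forall_eq 0
    intro φ
    apply LinearMap.ext
    intro z
    apply hinj
    obtain ⟨w, rfl⟩ := Submodule.Quotient.mk_surjective _ z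
    change r • φ _ = r • (0 : N)
    rw [← map_smul, ← Submodule.Quotient.mk_smul, smul_eq_mul, (Submodule.Quotient.mk_eq_zero _).2
      (m.mul_mem_right w hr), map_zero, smul_zero]
  exact (ext0 m N).injective.subsingleton

lemma length_ext2 [IsDomain R] {U V : R} (hU : U ∈ m) (hV : V ∈ m) (hU0 : U ≠ 0)
    (hreg : ∀ h, V * h ∈ Ideal.span {U} → h ∈ Ideal.span {U}) :
    Module.length R (EX m R 2) =
      Module.length R (Submodule.torsionBySet R (R ⧸ Ideal.span {U, V}) m) := by
  have hinj : Function.Injective (U • (LinearMap.id : R →ₗ[R] R)) :=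
    fun a b h => mul_left_cancel₀ hU0 h
  have hex : Function.Exact (U • (LinearMap.id : R →ₗ[R] R)) (Ideal.span {U}).mkQ := by
    intro z
    rw [Submodule.mkQ_apply, Submodule.Quotient.mk_eq_zero, Ideal.mem_span_singleton']
    constructor
    · rintro ⟨w, h⟩; exact ⟨w, by simpa [mul_comm] using h⟩
    · rintro ⟨w, rfl⟩; exact ⟨w, by simp [mul_comm]⟩
  have hinj2 : Function.Injective
      (V • (LinearMap.id : (R ⧸ Ideal.span {U}) →ₗ[R] (R ⧸ Ideal.span {U}))) := by
    rw [injective_iff_map_eq_zero]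
    intro a ha
    obtain ⟨z, rfl⟩ := Submodule.Quotient.mk_surjective _ a
    exact (Submodule.Quotient.mk_eq_zero _).2
      (hreg z ((Submodule.Quotient.mk_eq_zero (Ideal.span {U})).1 ha))
  have hle : Ideal.span {U} ≤ Ideal.span {U, V} := Ideal.span_mono (by simp)
  have hex2 : Function.Exact
      (V • (LinearMap.id : (R ⧸ Ideal.span {U}) →ₗ[R] (R ⧸ Ideal.span {U})))
      (Submodule.factor hle) := by
    intro a
    obtain ⟨z, rfl⟩ := Submodule.Quotient.mk_surjective _ a
    constructor
    · intro ha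
      have : z ∈ Ideal.span {U, V} := (Submodule.Quotient.mk_eq_zero _).1 ha
      obtain ⟨a, b, rfl⟩ := Ideal.mem_span_pair.1 this
      refine ⟨Submodule.Quotient.mk b, ?_⟩
      change Submodule.Quotient.mk (V * b) = _
      rw [Submodule.Quotient.eq]
      exact Ideal.mem_span_singleton'.2 ⟨-a, by ring⟩
    · rintro ⟨b, hb⟩
      obtain ⟨w, rfl⟩ := Submodule.Quotient.mk_surjective _ b
      rw [← hb]
      change Submodule.Quotient.mk (V * w) = 0
      rw [Submodule.Quotient.mk_eq_zero]
      exact Ideal.mem_span_pair.2 ⟨0, w, by ring⟩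
  have s0 := ext0_sub m hU hinj
  have s1 := ext0_sub m hV hinj2
  obtain ⟨δ0, h0, -⟩ := step m hU hinj _ hex (Submodule.mkQ_surjective _) 0
  have s2 : Subsingleton (EX m R 1) := h0.subsingleton
  obtain ⟨δ1, h1, h1'⟩ := step m hU hinj _ hex (Submodule.mkQ_surjective _) 1
  obtain ⟨δ2, h2, h2'⟩ := step m hV hinj2 _ hex2 (Submodule.factor_surjective _) 0
  rw [← (LinearEquiv.ofBijective δ1 ⟨h1' s2, h1⟩).length_eq,
    ← (LinearEquiv.ofBijective δ2 ⟨h2' s1, h2⟩).length_eq, (ext0 m _).length_eq]
  let ev : ((R ⧸ m) →ₗ[R] (R ⧸ Ideal.span {U, V})) →ₗ[R] (R ⧸ Ideal.span {U, V}) :=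
    LinearMap.applyₗ (Submodule.Quotient.mk 1)
  have hev : Function.Injective ev := by
    rw [injective_iff_map_eq_zero]
    intro φ hφ
    apply LinearMap.ext
    intro z
    obtain ⟨w, rfl⟩ := Submodule.Quotient.mk_surjective _ z
    have : (Submodule.Quotient.mk w : R ⧸ m) = w • Submodule.Quotient.mk 1 := by
      rw [← Submodule.Quotient.mk_smul, smul_eq_mul, mul_one]
    have h3 : φ (Submodule.Quotient.mk 1) = 0 := hφ
    rw [this, map_smul, h3, smul_zero]; rfl
  rw [(LinearEquiv.ofInjective ev hev).length_eq]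
  have : LinearMap.range ev = Submodule.torsionBySet R (R ⧸ Ideal.span {U, V}) m := by
    ext q
    rw [Submodule.mem_torsionBySet_iff]
    constructor
    · rintro ⟨φ, rfl⟩ ⟨a, ha⟩
      change a • φ (Submodule.Quotient.mk 1) = 0
      rw [← map_smul, ← Submodule.Quotient.mk_smul, (Submodule.Quotient.mk_eq_zero _).2
        (by simpa using ha), map_zero]
    · intro h
      refine ⟨Submodule.liftQ m (LinearMap.toSpanSingleton R _ q) fun a ha => h ⟨a, ha⟩, ?_⟩
      exact one_smul R q
  rw [this]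

end ext

lemma cm_of {R : Type} [CommRing R] [IsNoetherianRing R] (𝔪 : Ideal R) [𝔪.IsMaximal]
    (l : List R) (hw : RingTheory.Sequence.IsWeaklyRegular R l) (hm : ∀ r ∈ l, r ∈ 𝔪)
    (hp : ∀ p : Ideal R, p.IsPrime → (∀ r ∈ l, r ∈ p) → p.IsMaximal) :
    ∃ rs : List (Localization.AtPrime 𝔪),
      (∀ r ∈ rs, r ∈ IsLocalRing.maximalIdeal (Localization.AtPrime 𝔪)) ∧
      RingTheory.Sequence.IsRegular (Localization.AtPrime 𝔪) rs ∧
      (rs.length : WithBot ℕ∞) = ringKrullDim (Localization.AtPrime 𝔪) := by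
  have hreg := hw.isRegular_of_isLocalization_of_mem (Localization.AtPrime 𝔪) 𝔪 hm
  set rs := l.map (algebraMap R (Localization.AtPrime 𝔪)) with hrs
  have hmem : ∀ r ∈ rs, r ∈ IsLocalRing.maximalIdeal (Localization.AtPrime 𝔪) := by
    intro r hr
    obtain ⟨x, hx, rfl⟩ := List.mem_map.1 hr
    exact (IsLocalization.AtPrime.to_map_mem_maximal_iff (Localization.AtPrime 𝔪) 𝔪 x).2 (hm x hx)
  refine ⟨rs, hmem, hreg, ?_⟩
  have hd := ringKrullDim_add_length_eq_ringKrullDim_of_isRegular rs hreg
  have hle : Ideal.ofList rs ≤ IsLocalRing.maximalIdeal _ := Ideal.span_le.2 hmem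
  have : Nontrivial (Localization.AtPrime 𝔪 ⧸ Ideal.ofList rs) :=
    Ideal.Quotient.nontrivial_iff.2 fun h => (IsLocalRing.maximalIdeal.isMaximal _).ne_top
      (eq_top_iff.2 (h ▸ hle))
  have hz : ringKrullDim (Localization.AtPrime 𝔪 ⧸ Ideal.ofList rs) = 0 := by
    rw [← ringKrullDimZero_iff_ringKrullDim_eq_zero, Ring.krullDimLE_zero_iff]
    intro Q hQ
    set q := Q.comap (Ideal.Quotient.mk (Ideal.ofList rs)) with hq
    have hpm : (q.under R).IsMaximal := by
      refine hp _ inferInstance fun r hr => ?_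
      have h1 : algebraMap R (Localization.AtPrime 𝔪) r ∈ Ideal.ofList rs :=
        Ideal.subset_span (List.mem_map_of_mem hr)
      rw [Ideal.under, Ideal.mem_comap, hq, Ideal.mem_comap,
        Ideal.Quotient.eq_zero_iff_mem.2 h1]
      exact Q.zero_mem
    have hpe : q.under R = 𝔪 := by
      refine hpm.eq_of_le (Ideal.IsMaximal.ne_top inferInstance) ?_
      conv_rhs => rw [← Localization.AtPrime.under_maximalIdeal (I := 𝔪)]
      exact Ideal.comap_mono (IsLocalRing.le_maximalIdeal (Ideal.IsPrime.ne_top inferInstance))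
    have hqm : q = IsLocalRing.maximalIdeal _ := by
      rw [← IsLocalization.map_under 𝔪.primeCompl _ q, hpe,
        Localization.AtPrime.map_eq_maximalIdeal]
    have : q.IsMaximal := hqm ▸ IsLocalRing.maximalIdeal.isMaximal _
    rw [← Ideal.map_comap_of_surjective _ Ideal.Quotient.mk_surjective Q]
    refine Ideal.IsMaximal.map_of_surjective_of_ker_le Ideal.Quotient.mk_surjective ?_
    exact Ideal.ker_le_comap _
  rw [hz, zero_add] at hd
  exact hd

lemma weak2 {R : Type} [CommRing R] [IsDomain R] {a b : R} (ha : a ≠ 0)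
    (h : ∀ z, b * z ∈ Ideal.span {a} → z ∈ Ideal.span {a}) :
    RingTheory.Sequence.IsWeaklyRegular R [a, b] := by
  refine ⟨fun i hi => ?_⟩
  rw [isSMulRegular_quotient_iff_mem_of_smul_mem, smul_eq_mul, Ideal.mul_top]
  intro x
  match i, hi with
  | 0, _ =>
    simp only [List.take_zero, Ideal.ofList_nil, Ideal.mem_bot, List.getElem_cons_zero,
      smul_eq_mul]
    exact fun h => (mul_eq_zero.1 h).resolve_left ha
  | 1, _ =>
    simp only [List.take_succ_cons, List.take_zero, Ideal.ofList_singleton,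
      List.getElem_cons_succ, List.getElem_cons_zero, smul_eq_mul]
    exact h x

variable {K V : Type} [Field K] [DecidableEq V]

/-- isolate a variable -/
noncomputable def Phi (v : V) : MvPolynomial V K →ₐ[K] Polynomial (MvPolynomial V K) :=
  aeval fun s => if s = v then Polynomial.X else Polynomial.C (X s)

lemma Phi_eval (v : V) (h : MvPolynomial V K) : (Phi v h).eval (X v) = h := by
  induction h using MvPolynomial.induction_on with
  | C a => simp [Phi]
  | add p q hp hq => simp [hp, hq]
  | mul_X p s hp =>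
    rw [map_mul, Polynomial.eval_mul, hp]
    by_cases hs : s = v <;> simp [Phi, hs]

lemma Phi_ne {v s : V} (hs : s ≠ v) (f : Polynomial K) :
    Phi v (Polynomial.aeval (X s : MvPolynomial V K) f) =
      Polynomial.C (Polynomial.aeval (X s : MvPolynomial V K) f) := by
  rw [← Polynomial.aeval_algHom_apply]
  have : Phi v (X s : MvPolynomial V K) = Polynomial.CAlgHom (R := K) (X s : MvPolynomial V K) := by
    simp [Phi, hs]
  rw [this, Polynomial.aeval_algHom_apply]
  rfl

lemma monic_reg (v : V) (G : Set (MvPolynomial V K)) (hG : ∀ g ∈ G, Phi v g = Polynomial.C g)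
    {f : Polynomial K} (hf : f.Monic) (h : MvPolynomial V K)
    (hh : Polynomial.aeval (X v : MvPolynomial V K) f * h ∈ Ideal.span G) : h ∈ Ideal.span G := by
  set J := Ideal.span G
  have h1 : ∀ g ∈ J, (Phi v g).map (Ideal.Quotient.mk J) = 0 := by
    intro g hg
    induction hg using Submodule.span_induction with
    | mem x hx =>
      rw [hG x hx, Polynomial.map_C, Ideal.Quotient.eq_zero_iff_mem.2 (Ideal.subset_span hx)]
      simp
    | zero => simp
    | add x y _ _ hx hy => simp [hx, hy]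
    | smul a x _ hx => simp [hx]
  have h2 := h1 _ hh
  have h3 : Phi v (Polynomial.aeval (X v : MvPolynomial V K) f) =
      f.map (algebraMap K (MvPolynomial V K)) := by
    rw [← Polynomial.aeval_algHom_apply]
    simp [Phi, Polynomial.aeval_X_left_eq_map]
  rw [map_mul, Polynomial.map_mul, h3,
    ((hf.map _).map _).mul_right_eq_zero_iff] at h2
  have h4 := congrArg (Polynomial.eval (Ideal.Quotient.mk J (X v))) h2
  rw [Polynomial.eval_map, Polynomial.eval₂_at_apply, Phi_eval, Polynomial.eval_zero] at h4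
  exact Ideal.Quotient.eq_zero_iff_mem.1 h4

lemma supp_of_mul {G : Type} [AddMonoid G] (φ : (V →₀ ℕ) →+ G) (F h : MvPolynomial V K)
    (hF0 : F ≠ 0) (hF : ∀ s ∈ F.support, φ s = 0) :
    ∀ s ∈ h.support, ∃ s' ∈ (F * h).support, φ s' = φ s := by
  classical
  intro s hs
  let h' : MvPolynomial V K :=
    ∑ t ∈ h.support.filter (fun t => φ t = φ s), monomial t (coeff t h)
  have hc : ∀ t, coeff t h' = if φ t = φ s then coeff t h else 0 := by
    intro t
    simp only [h', coeff_sum, coeff_monomial, Finset.sum_ite_eq', Finset.mem_filter,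
      mem_support_iff]
    by_cases h1 : φ t = φ s <;> by_cases h2 : coeff t h = 0 <;> simp [h1, h2]
  have h0 : h' ≠ 0 := by
    intro h0
    have := hc s
    rw [h0, if_pos rfl, coeff_zero] at this
    exact mem_support_iff.1 hs this.symm
  obtain ⟨t, ht⟩ := ne_zero_iff.1 (mul_ne_zero hF0 h0)
  have key : coeff t (F * h') = if φ t = φ s then coeff t (F * h) else 0 := by
    rw [coeff_mul, coeff_mul]
    have e : ∀ x ∈ Finset.HasAntidiagonal.antidiagonal t, coeff x.1 F * coeff x.2 h' =
        if φ t = φ s then coeff x.1 F * coeff x.2 h else 0 := by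
      intro x hx
      by_cases h1 : coeff x.1 F = 0
      · simp [h1]
      · have h2 : φ t = φ x.2 := by
          rw [← Finset.HasAntidiagonal.mem_antidiagonal.1 hx, map_add, hF _ (mem_support_iff.2 h1), zero_add]
        rw [hc, h2]
        split_ifs <;> simp
    rw [Finset.sum_congr rfl e]
    split_ifs <;> simp
  rw [key] at ht
  split_ifs at ht with h1
  · exact ⟨t, mem_support_iff.2 ht, h1⟩
  · exact absurd rfl ht

end Pool.Agent.H.MP_4f2529_ag
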