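import Mathlib
import Pool.Agent.H.MP_4f2529_ag.Defs
import Pool.Agent.H.MP_4f2529_ag.Gen
import Pool.Agent.H.MP_4f2529_ag.Comb

open MvPolynomial

namespace Pool.Agent.H.MP_4f2529_ag

/-- exponent vector -/
noncomputable def ex (x y : ℕ) : Fin 2 →₀ ℕ := Finsupp.single 0 x + Finsupp.single 1 y

@[simp] lemma ex0 (x y : ℕ) : ex x y 0 = x := by simp [ex]
@[simp] lemma ex1 (x y : ℕ) : ex x y 1 = y := by simp [ex]

lemma ex_ext {s t : Fin 2 →₀ ℕ} (h0 : s 0 = t 0) (h1 : s 1 = t 1) : s = t := by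
  ext i; fin_cases i
  · exact h0
  · exact h1

variable {k : Type} [Field k]

lemma mon_eq (x y : ℕ) : (X 0 ^ x * X 1 ^ y : MvPolynomial (Fin 2) k) = monomial (ex x y) 1 := by
  rw [X_pow_eq_monomial, X_pow_eq_monomial, monomial_mul, mul_one, ex]

/-- the data of the construction -/
structure Dat (T S : AddSubmonoid ℕ) (d : ℕ) (A P : Finset ℕ) : Prop where
  pos : 0 < d
  memA : ∀ a, a ∈ A ↔ Gen T S d a
  dT : d ∈ T
  big : ∀ b, d ≤ b → b ∈ S
  cl : ∀ x y, x ∈ T → y ∈ S → d ∣ x + y → (x, y) ∈ Cl T S d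
  pf : ∀ f ∈ P, f < d ∧ f ∉ T ∧ d - f ∉ S ∧ ∀ s ∈ T, s ≠ 0 → f + s ∈ T
  max : ∀ x y, x ∈ T → y ∈ S → d ∣ x + y → ¬ Bad T S d x y →
    ((∃ f ∈ P, x = d + f ∧ y = 2 * d - f) ∨
      ∃ a, Gen T S d a ∧ ¬ Bad T S d (x + a) (y + (d - a)))

/-- exponents of the semigroup -/
def Good (T S : AddSubmonoid ℕ) (d : ℕ) (s : Fin 2 →₀ ℕ) : Prop :=
  s 0 ∈ T ∧ s 1 ∈ S ∧ d ∣ s 0 + s 1

variable {T S : AddSubmonoid ℕ} {d : ℕ} {A P : Finset ℕ}

lemma Good.add {s t : Fin 2 →₀ ℕ} (h : Good T S d s) (h' : Good T S d t) : Good T S d (s + t) := by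
  refine ⟨add_mem h.1 h'.1, add_mem h.2.1 h'.2.1, ?_⟩
  have := Nat.dvd_add h.2.2 h'.2.2
  simp only [Finsupp.add_apply]
  convert this using 1; ring

lemma good_gen {a : ℕ} (h : Gen T S d a) : Good T S d (ex a (d - a)) :=
  ⟨by simpa using h.2.1, by simpa using h.2.2, by simp [Nat.add_sub_cancel' h.1]⟩

namespace Dat
variable (D : Dat T S d A P)
include D

lemma mon_mem {s : Fin 2 →₀ ℕ} (hs : Good T S d s) (c : k) : monomial s c ∈ coordRing k A d := by
  have h1 : ∀ p ∈ Cl T S d, monomial (ex p.1 p.2) (1 : k) ∈ coordRing k A d := by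
    intro p hp
    induction hp using AddSubmonoid.closure_induction with
    | mem p hp =>
      obtain ⟨a, ha, rfl⟩ := hp
      exact Algebra.subset_adjoin ⟨a, (D.memA a).2 ha, (mon_eq _ _).symm⟩
    | zero =>
      have : ex 0 0 = 0 := ex_ext (by simp) (by simp)
      simp only [Prod.fst_zero, Prod.snd_zero, this]
      exact one_mem _
    | add p q _ _ hp hq =>
      have : ex (p + q).1 (p + q).2 = ex p.1 p.2 + ex q.1 q.2 := ex_ext (by simp) (by simp)
      rw [this, ← mul_one (1 : k), ← monomial_mul]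
      exact mul_mem hp hq
  have h2 := h1 _ (D.cl _ _ hs.1 hs.2.1 hs.2.2)
  rw [show ex (s 0, s 1).1 (s 0, s 1).2 = s from ex_ext (by simp) (by simp)] at h2
  have := Subalgebra.smul_mem _ h2 c
  rwa [smul_monomial, smul_eq_mul, mul_one] at this

lemma mem_iff (h : MvPolynomial (Fin 2) k) :
    h ∈ coordRing k A d ↔ ∀ s ∈ h.support, Good T S d s := by
  classical
  constructor
  · intro hh
    induction hh using Algebra.adjoin_induction with
    | mem x hx =>
      obtain ⟨a, ha, rfl⟩ := hx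
      intro s hs
      rw [mon_eq] at hs
      rw [Finset.mem_singleton.1 (support_monomial_subset hs)]
      exact good_gen ((D.memA a).1 ha)
    | algebraMap c =>
      intro s hs
      rw [Finset.mem_singleton.1 (support_monomial_subset hs)]
      exact ⟨T.zero_mem, S.zero_mem, by simp⟩
    | add x y _ _ hx hy =>
      intro s hs
      rcases Finset.mem_union.1 (support_add hs) with h | h
      exacts [hx s h, hy s h]
    | mul x y _ _ hx hy =>
      intro s hs
      obtain ⟨a, ha, b, hb, rfl⟩ := Finset.mem_add.1 (support_mul x y hs)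
      exact (hx a ha).add (hy b hb)
  · intro hh
    rw [h.as_sum]
    exact Subalgebra.sum_mem _ fun s hs => D.mon_mem (hh s hs) _

/-- monomials as elements of the coordinate ring -/
noncomputable def mn (s : Fin 2 →₀ ℕ) (hs : Good T S d s) (c : k) : coordRing k A d :=
  ⟨monomial s c, D.mon_mem hs c⟩

lemma as_sum (h : coordRing k A d) :
    h = ∑ s ∈ h.1.support.attach, D.mn s.1 ((D.mem_iff _).1 h.2 s.1 s.2) (coeff s.1 h.1) := by
  apply Subtype.ext
  rw [AddSubmonoidClass.coe_finsetSum]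
  conv_lhs => rw [h.1.as_sum]
  exact (Finset.sum_attach h.1.support (fun s => monomial s (coeff s h.1))).symm

lemma gU : Good T S d (ex d 0) := ⟨by simpa using D.dT, by simp, by simp⟩
lemma gV : Good T S d (ex 0 d) := ⟨by simp, by simpa using D.big d le_rfl, by simp⟩

lemma mem_I (h : coordRing k A d) :
    h ∈ Ideal.span {D.mn _ D.gU (1 : k), D.mn _ D.gV 1} ↔
      ∀ s ∈ h.1.support, Bad T S d (s 0) (s 1) := by
  classical
  constructor
  · intro hh s hs
    obtain ⟨a, b, rfl⟩ := Ideal.mem_span_pair.1 hh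
    rcases Finset.mem_union.1 (support_add hs) with h | h
    · obtain ⟨u, hu, v, hv, rfl⟩ := Finset.mem_add.1 (support_mul _ _ h)
      rw [Finset.mem_singleton.1 (support_monomial_subset hv)]
      left
      simpa using ((D.mem_iff _).1 a.2 u hu).1
    · obtain ⟨u, hu, v, hv, rfl⟩ := Finset.mem_add.1 (support_mul _ _ h)
      rw [Finset.mem_singleton.1 (support_monomial_subset hv)]
      right
      simpa using ((D.mem_iff _).1 b.2 u hu).2.1
  · intro hh
    rw [D.as_sum h]
    refine Ideal.sum_mem _ fun s _ => ?_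
    obtain ⟨g1, g2, g3⟩ := (D.mem_iff _).1 h.2 s.1 s.2
    rw [Ideal.mem_span_pair]
    rcases hh s.1 s.2 with ⟨h1, h2⟩ | ⟨h1, h2⟩
    · refine ⟨D.mn (ex (s.1 0 - d) (s.1 1)) ⟨by simpa using h2, by simpa using g2, ?_⟩
        (coeff s.1 h.1), 0, Subtype.ext ?_⟩
      · rw [ex0, ex1, show s.1 0 - d + s.1 1 = s.1 0 + s.1 1 - d by omega]
        exact Nat.dvd_sub g3 dvd_rfl
      · have : ex (s.1 0 - d) (s.1 1) + ex d 0 = s.1 := ex_ext (by simp; omega) (by simp)
        simp [mn, monomial_mul, this]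
    · refine ⟨0, D.mn (ex (s.1 0) (s.1 1 - d)) ⟨by simpa using g1, by simpa using h2, ?_⟩
        (coeff s.1 h.1), Subtype.ext ?_⟩
      · rw [ex0, ex1, show s.1 0 + (s.1 1 - d) = s.1 0 + s.1 1 - d by omega]
        exact Nat.dvd_sub g3 dvd_rfl
      · have : ex (s.1 0) (s.1 1 - d) + ex 0 d = s.1 := ex_ext (by simp) (by simp; omega)
        simp [mn, monomial_mul, this]

lemma gen_mem {a : ℕ} (ha : Gen T S d a) : D.mn _ (good_gen ha) (1 : k) ∈ irr k A d :=
  Ideal.subset_span ⟨a, (D.memA a).2 ha, (mon_eq _ _).symm⟩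

lemma mn_mem_irr {s : Fin 2 →₀ ℕ} (hs : Good T S d s) (h0 : s ≠ 0) (c : k) :
    D.mn s hs c ∈ irr k A d := by
  have h1 : ∀ p ∈ Cl T S d, p = 0 ∨ ∀ x : coordRing k A d,
      x.1 = monomial (ex p.1 p.2) (1 : k) → x ∈ irr k A d := by
    intro p hp
    have hg : ∀ p ∈ Cl T S d, Good T S d (ex p.1 p.2) := by
      intro p hp
      induction hp using AddSubmonoid.closure_induction with
      | mem p hp => obtain ⟨a, ha, rfl⟩ := hp; exact good_gen ha
      | zero => exact ⟨by simp, by simp, by simp⟩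
      | add p q _ _ hp hq =>
        have : ex (p + q).1 (p + q).2 = ex p.1 p.2 + ex q.1 q.2 := ex_ext (by simp) (by simp)
        rw [this]; exact hp.add hq
    induction hp using AddSubmonoid.closure_induction with
    | mem p hp =>
      obtain ⟨a, ha, rfl⟩ := hp
      right
      intro x hx
      rw [show x = D.mn _ (good_gen ha) 1 from Subtype.ext hx]
      exact D.gen_mem ha
    | zero => exact Or.inl rfl
    | add p q hp' hq' hp hq =>
      rcases hp with rfl | hp
      · simpa using hq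
      · right
        intro x hx
        have : ex (p + q).1 (p + q).2 = ex p.1 p.2 + ex q.1 q.2 := ex_ext (by simp) (by simp)
        have e : x = D.mn _ (hg p hp') 1 * D.mn _ (hg q hq') 1 :=
          Subtype.ext (by rw [hx, this]; simp [mn, monomial_mul])
        rw [e]
        exact Ideal.mul_mem_right _ _ (hp _ rfl)
  rcases h1 _ (D.cl _ _ hs.1 hs.2.1 hs.2.2) with h | h
  · exact absurd (ex_ext (congrArg Prod.fst h) (congrArg Prod.snd h)) h0
  · have h2 := h (D.mn s hs 1) (by
      rw [show ex (s 0, s 1).1 (s 0, s 1).2 = s from ex_ext (by simp) (by simp)]; rfl)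
    have e : D.mn s hs c = algebraMap k _ c * D.mn s hs 1 :=
      Subtype.ext (by simp [mn, C_mul_monomial])
    rw [e]
    exact Ideal.mul_mem_left _ _ h2

lemma irr_eq : irr k A d =
    RingHom.ker (constantCoeff.comp (coordRing k A d).val.toRingHom) := by
  apply le_antisymm
  · rw [irr, Ideal.span_le]
    rintro x ⟨a, ha, hx⟩
    have h1 := ((D.memA a).1 ha).1
    have h2 := D.pos
    change constantCoeff x.1 = 0
    rw [hx, mon_eq, constantCoeff_monomial, if_neg]
    intro h
    have h3 := congrArg (fun s => s 0 + s 1) h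
    simp at h3; omega
  · intro h hh
    rw [D.as_sum h]
    refine Ideal.sum_mem _ fun s _ => D.mn_mem_irr _ ?_ _
    intro h0
    have := mem_support_iff.1 s.2
    rw [h0] at this
    exact this hh

lemma reg (f g : Polynomial k) (hf : f.Monic) (hg : g.Monic) (z : coordRing k A d)
    (h : Polynomial.aeval (D.mn _ D.gV (1 : k)) g * z ∈
      Ideal.span {Polynomial.aeval (D.mn _ D.gU (1 : k)) f}) :
    z ∈ Ideal.span {Polynomial.aeval (D.mn _ D.gU (1 : k)) f} := by
  have hd := D.pos
  have key : ∀ (i : Fin 2) (f : Polynomial k), f.Monic →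
      Polynomial.aeval (X i : MvPolynomial (Fin 2) k) (Polynomial.expand k d f) ≠ 0 ∧
      ∀ s ∈ (Polynomial.aeval (X i : MvPolynomial (Fin 2) k) (Polynomial.expand k d f)).support,
        ∃ n, s = Finsupp.single i (d * n) := by
    intro i f hf
    constructor
    · intro h
      have h1 := congrArg (aeval fun _ : Fin 2 => (Polynomial.X : Polynomial k)) h
      rw [← Polynomial.aeval_algHom_apply, aeval_X, Polynomial.aeval_X_left_apply, map_zero] at h1
      exact (hf.expand hd).ne_zero h1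
    · intro s hs
      rw [Polynomial.expand_aeval, Polynomial.aeval_eq_sum_range] at hs
      obtain ⟨n, -, hn⟩ := Finset.mem_biUnion.1 (support_sum hs)
      rw [← pow_mul, X_pow_eq_monomial, smul_monomial] at hn
      exact ⟨n, Finset.mem_singleton.1 (support_monomial_subset hn)⟩
  have eU : ((Polynomial.aeval (D.mn _ D.gU (1 : k)) f : coordRing k A d) :
      MvPolynomial (Fin 2) k) = Polynomial.aeval (X 0) (Polynomial.expand k d f) := by
    rw [Polynomial.expand_aeval, ← Subalgebra.val_apply, ← Polynomial.aeval_algHom_apply]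
    congr 2
    have := mon_eq (k := k) d 0
    rw [pow_zero, mul_one] at this
    exact this.symm
  have eV : ((Polynomial.aeval (D.mn _ D.gV (1 : k)) g : coordRing k A d) :
      MvPolynomial (Fin 2) k) = Polynomial.aeval (X 1) (Polynomial.expand k d g) := by
    rw [Polynomial.expand_aeval, ← Subalgebra.val_apply, ← Polynomial.aeval_algHom_apply]
    congr 2
    have := mon_eq (k := k) 0 d
    rw [pow_zero, one_mul] at this
    exact this.symm
  obtain ⟨w, hw⟩ := Ideal.mem_span_singleton'.1 h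
  have hw' := congrArg Subtype.val hw
  simp only [MulMemClass.coe_mul, eU, eV] at hw'
  obtain ⟨hU0, hUs⟩ := key 0 f hf
  obtain ⟨hV0, hVs⟩ := key 1 g hg
  set U := Polynomial.aeval (X 0 : MvPolynomial (Fin 2) k) (Polynomial.expand k d f) with hU
  set V := Polynomial.aeval (X 1 : MvPolynomial (Fin 2) k) (Polynomial.expand k d g) with hV
  obtain ⟨z', hz'⟩ := Ideal.mem_span_singleton'.1 (monic_reg (1 : Fin 2) {U}
    (by rintro _ rfl; exact Phi_ne (by decide) _) (hg.expand hd) z.1
    (Ideal.mem_span_singleton'.2 ⟨w.1, hw'⟩))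
  have hw2 : V * z' = w.1 := by
    apply mul_left_cancel₀ hU0
    rw [mul_comm U w.1, hw', ← hz']; ring
  have hz2 : z' ∈ coordRing k A d := by
    rw [D.mem_iff]
    intro s hs
    refine ⟨?_, ?_, ?_⟩
    · obtain ⟨s', h1, h2⟩ := supp_of_mul (Finsupp.applyAddHom (0 : Fin 2)) V z' hV0
        (fun t ht => by obtain ⟨n, rfl⟩ := hVs t ht; simp) s hs
      rw [hw2] at h1
      have h3 : s' 0 = s 0 := h2
      rw [← h3]; exact ((D.mem_iff _).1 w.2 s' h1).1
    · obtain ⟨s', h1, h2⟩ := supp_of_mul (Finsupp.applyAddHom (1 : Fin 2)) U z' hU0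
        (fun t ht => by obtain ⟨n, rfl⟩ := hUs t ht; simp) s hs
      rw [mul_comm, hz'] at h1
      have h3 : s' 1 = s 1 := h2
      rw [← h3]; exact ((D.mem_iff _).1 z.2 s' h1).2.1
    · obtain ⟨s', h1, h2⟩ := supp_of_mul ((Nat.castAddMonoidHom (ZMod d)).comp
        (Finsupp.applyAddHom (0 : Fin 2) + Finsupp.applyAddHom (1 : Fin 2))) U z' hU0
        (fun t ht => by obtain ⟨n, rfl⟩ := hUs t ht; simp) s hs
      rw [mul_comm, hz'] at h1
      have h3 : ((s' 0 + s' 1 : ℕ) : ZMod d) = ((s 0 + s 1 : ℕ) : ZMod d) := h2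
      rw [← ZMod.natCast_eq_zero_iff, ← h3, ZMod.natCast_eq_zero_iff]
      exact ((D.mem_iff _).1 z.2 s' h1).2.2
  exact Ideal.mem_span_singleton'.2 ⟨⟨z', hz2⟩, Subtype.ext (by
    rw [MulMemClass.coe_mul, eU]; exact hz')⟩

end Dat

end Pool.Agent.H.MP_4f2529_ag
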