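import Mathlib
import Pool.Agent.H.MP_4f2529_ag.Alg

open MvPolynomial

namespace Pool.Agent.H.MP_4f2529_ag

variable {k : Type} [Field k] {T S : AddSubmonoid ℕ} {d : ℕ} {A P : Finset ℕ}

lemma fg_coord (k : Type) [Field k] (A : Finset ℕ) (d : ℕ) : (coordRing k A d).FG := by
  refine Subalgebra.fg_def.2 ⟨_, ?_, rfl⟩
  exact (A.finite_toSet.image fun a => (X 0 ^ a * X 1 ^ (d - a) : MvPolynomial (Fin 2) k)).subset
    (by rintro _ ⟨a, ha, rfl⟩; exact ⟨a, ha, rfl⟩)

lemma socle_len {R ι : Type} [CommRing R] [Algebra k R] [Fintype ι] (m I : Ideal R)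
    (hmax : m.IsMaximal) (hsurj : ∀ h : R, ∃ c : k, algebraMap k R c - h ∈ m) (e : ι → R)
    (hk : ∀ i, ∀ a ∈ m, a * e i ∈ I)
    (hind : ∀ c : ι → k, ∑ i, algebraMap k R (c i) * e i ∈ I → ∀ i, c i = 0)
    (hspan : ∀ h : R, (∀ a ∈ m, a * h ∈ I) → ∃ c : ι → k, ∑ i, algebraMap k R (c i) * e i - h ∈ I) :
    Module.length R (Submodule.torsionBySet R (R ⧸ I) m) = Fintype.card ι := by
  have hs : IsSimpleModule R (R ⧸ m) := isSimpleModule_iff_isCoatom.2 (Ideal.isMaximal_def.1 hmax)
  let σ : ι → (R ⧸ m) →ₗ[R] (R ⧸ I) := fun f =>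
    Submodule.liftQ m (LinearMap.toSpanSingleton R (R ⧸ I) (Submodule.Quotient.mk (e f)))
      fun a ha => (Submodule.Quotient.mk_eq_zero I).2 (hk f a ha)
  let Ψ : (ι → R ⧸ m) →ₗ[R] (R ⧸ I) := ∑ f, (σ f).comp (LinearMap.proj f)
  have hΨ : ∀ c : ι → k, Ψ (fun f => Submodule.Quotient.mk (algebraMap k R (c f))) =
      Submodule.Quotient.mk (∑ i, algebraMap k R (c i) * e i) := by
    intro c
    rw [← Submodule.mkQ_apply I, map_sum]
    simp only [Ψ, LinearMap.sum_apply]
    rfl
  have hinj : Function.Injective Ψ := by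
    rw [injective_iff_map_eq_zero]
    intro z hz
    have h1 : ∀ f, ∃ c : k, Submodule.Quotient.mk (algebraMap k R c) = z f := by
      intro f
      obtain ⟨h, hh⟩ := Submodule.Quotient.mk_surjective _ (z f)
      obtain ⟨c, hc⟩ := hsurj h
      exact ⟨c, by rw [← hh, Submodule.Quotient.eq]; exact hc⟩
    choose c hc using h1
    obtain rfl : (fun f => Submodule.Quotient.mk (algebraMap k R (c f))) = z := funext hc
    rw [hΨ, Submodule.Quotient.mk_eq_zero] at hz
    ext f
    simp [hind c hz f]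
  have hrange : LinearMap.range Ψ = Submodule.torsionBySet R (R ⧸ I) m := by
    ext q
    rw [Submodule.mem_torsionBySet_iff]
    constructor
    · rintro ⟨z, rfl⟩ ⟨a, ha⟩
      rw [← map_smul]
      have : (a • z) = 0 := by
        ext f
        obtain ⟨w, hw⟩ := Submodule.Quotient.mk_surjective _ (z f)
        rw [Pi.smul_apply, ← hw, ← Submodule.Quotient.mk_smul]
        exact (Submodule.Quotient.mk_eq_zero _).2 (m.mul_mem_right w ha)
      rw [this, map_zero]
    · intro hq
      obtain ⟨h, rfl⟩ := Submodule.Quotient.mk_surjective _ q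
      obtain ⟨c, hc⟩ := hspan h fun a ha => (Submodule.Quotient.mk_eq_zero I).1 (hq ⟨a, ha⟩)
      exact ⟨_, (hΨ c).trans ((Submodule.Quotient.eq I).2 hc)⟩
  rw [← hrange, ← (LinearEquiv.ofInjective Ψ hinj).length_eq, Module.length_pi_of_fintype]
  simp

namespace Dat
variable (D : Dat T S d A P)
include D

lemma mn_smul {s : Fin 2 →₀ ℕ} (hs : Good T S d s) (c : k) :
    D.mn s hs c = algebraMap k _ c * D.mn s hs 1 :=
  Subtype.ext (by simp [mn, C_mul_monomial])

lemma aeval_ne (f : Polynomial k) (hf : f.Monic) :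
    Polynomial.aeval (D.mn _ D.gU (1 : k)) f ≠ 0 := by
  intro h
  have h1 := congrArg ((aeval fun _ : Fin 2 => (Polynomial.X : Polynomial k)).comp
    (coordRing k A d).val) h
  rw [← Polynomial.aeval_algHom_apply, map_zero] at h1
  have e : ((aeval fun _ : Fin 2 => (Polynomial.X : Polynomial k)).comp (coordRing k A d).val)
      (D.mn _ D.gU (1 : k)) = Polynomial.aeval Polynomial.X (Polynomial.X ^ d : Polynomial k) := by
    change aeval _ (monomial (ex d 0) (1 : k)) = _
    rw [← mon_eq]; simp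
  rw [e, map_pow, Polynomial.aeval_X, ← Polynomial.expand_aeval,
    Polynomial.aeval_X_left_apply] at h1
  exact (hf.expand D.pos).ne_zero h1

theorem isCM : IsCM (coordRing k A d) := by
  have hN : IsNoetherianRing (coordRing k A d) := isNoetherianRing_of_fg (fg_coord k A d)
  have hT : Algebra.FiniteType k (coordRing k A d) :=
    (Subalgebra.fg_iff_finiteType _).1 (fg_coord k A d)
  refine ⟨hN, fun 𝔪 _ => ?_⟩
  let := Ideal.Quotient.field 𝔪
  have : Module.Finite k (coordRing k A d ⧸ 𝔪) := finite_of_finite_type_of_isJacobsonRing k _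
  set U := D.mn _ D.gU (1 : k)
  set V := D.mn _ D.gV (1 : k)
  have hm : ∀ x : coordRing k A d, ∃ f : Polynomial k, f.Monic ∧ Polynomial.aeval x f ∈ 𝔪 := by
    intro x
    refine ⟨minpoly k (Ideal.Quotient.mkₐ k 𝔪 x),
      minpoly.monic (Algebra.IsIntegral.isIntegral _), ?_⟩
    rw [← Ideal.Quotient.eq_zero_iff_mem]
    change Ideal.Quotient.mkₐ k 𝔪 _ = 0
    rw [← Polynomial.aeval_algHom_apply]
    exact minpoly.aeval _ _
  obtain ⟨f, hf, hf2⟩ := hm U
  obtain ⟨g, hg, hg2⟩ := hm V
  refine cm_of 𝔪 [Polynomial.aeval U f, Polynomial.aeval V g]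
    (weak2 (D.aeval_ne f hf) (D.reg f g hf hg)) (by simp [hf2, hg2]) fun p hp htp => ?_
  have hint : ∀ (x : coordRing k A d) (f : Polynomial k), f.Monic → Polynomial.aeval x f ∈ p →
      IsIntegral k (Ideal.Quotient.mkₐ k p x) := by
    intro x f hf h
    refine ⟨f, hf, ?_⟩
    rw [← Polynomial.aeval_def, Polynomial.aeval_algHom_apply]
    exact Ideal.Quotient.eq_zero_iff_mem.2 h
  have hU := hint U f hf (htp _ (by simp))
  have hV := hint V g hg (htp _ (by simp))
  have : Algebra.IsIntegral k (coordRing k A d ⧸ p) := by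
    constructor
    intro x
    obtain ⟨h, rfl⟩ := Ideal.Quotient.mkₐ_surjective k p x
    rw [D.as_sum h, map_sum]
    refine IsIntegral.sum _ fun s _ => ?_
    rw [D.mn_smul, map_mul, AlgHom.commutes]
    refine isIntegral_algebraMap.mul (IsIntegral.of_pow D.pos ?_)
    have e : D.mn s.1 ((D.mem_iff _).1 h.2 s.1 s.2) (1 : k) ^ d = U ^ (s.1 0) * V ^ (s.1 1) := by
      apply Subtype.ext
      simp only [U, V, mn, SubmonoidClass.coe_pow, MulMemClass.coe_mul, monomial_pow, monomial_mul,
        one_pow, mul_one]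
      congr 2
      exact ex_ext (by simp [mul_comm]) (by simp [mul_comm])
    rw [← map_pow, e, map_mul, map_pow, map_pow]
    exact (hU.pow _).mul (hV.pow _)
  exact Ideal.Quotient.maximal_of_isField p
    (isField_of_isIntegral_of_isField' (Field.toIsField k))

lemma gtop {f : ℕ} (hf : f ∈ P) : Good T S d (ex (d + f) (2 * d - f)) := by
  obtain ⟨h1, -, -, h4⟩ := D.pf f hf
  refine ⟨?_, ?_, ?_⟩
  · rw [ex0, add_comm]; exact h4 d D.dT D.pos.ne'
  · rw [ex1]; exact D.big _ (by omega)
  · rw [ex0, ex1]; exact ⟨3, by omega⟩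

lemma top_not_bad {f : ℕ} (hf : f ∈ P) : ¬ Bad T S d (d + f) (2 * d - f) := by
  obtain ⟨h1, h2, h3, -⟩ := D.pf f hf
  rintro (⟨-, h⟩ | ⟨-, h⟩)
  · exact h2 (by simpa using h)
  · exact h3 (by rwa [show 2 * d - f - d = d - f by omega] at h)

lemma top_killed {f : ℕ} (hf : f ∈ P) (a : coordRing k A d) (ha : a ∈ irr k A d) :
    a * D.mn _ (D.gtop hf) 1 ∈ Ideal.span {D.mn _ D.gU (1 : k), D.mn _ D.gV 1} := by
  obtain ⟨h1, -, -, h4⟩ := D.pf f hf
  induction ha using Submodule.span_induction with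
  | mem x hx =>
    obtain ⟨a, ha, hx⟩ := hx
    obtain ⟨h5, h6, -⟩ := (D.memA a).1 ha
    rw [D.mem_I]
    intro s hs
    rw [MulMemClass.coe_mul, hx, mon_eq, mn, monomial_mul] at hs
    rw [Finset.mem_singleton.1 (support_monomial_subset hs)]
    simp only [Finsupp.add_apply, ex0, ex1]
    by_cases h0 : a = 0
    · right
      exact ⟨by omega, D.big _ (by omega)⟩
    · left
      exact ⟨by omega, by rw [show a + (d + f) - d = f + a by omega]; exact h4 a h6 h0⟩
  | zero => simp
  | add x y _ _ hx hy => rw [add_mul]; exact Ideal.add_mem _ hx hy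
  | smul c x _ hx => rw [smul_eq_mul, mul_assoc]; exact Ideal.mul_mem_left _ _ hx

theorem cmType_eq : cmType k A d = P.card := by
  classical
  have hU0 : ex d 0 ≠ 0 := fun h => D.pos.ne' (by simpa using congrArg (fun s => s 0) h)
  have hV0 : ex 0 d ≠ 0 := fun h => D.pos.ne' (by simpa using congrArg (fun s => s 1) h)
  have h1 := length_ext2 (irr k A d) (D.mn_mem_irr D.gU hU0 (1 : k)) (D.mn_mem_irr D.gV hV0 1)
    (by simpa using D.aeval_ne (k := k) Polynomial.X Polynomial.monic_X)
    (by simpa using D.reg (k := k) Polynomial.X Polynomial.X Polynomial.monic_X Polynomial.monic_X)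
  rw [cmType, ext2Length, h1]
  have hcoeff : ∀ (c : P → k) (s : Fin 2 →₀ ℕ),
      coeff s (∑ f : P, algebraMap k _ (c f) * D.mn _ (D.gtop f.2) 1).1 =
      ∑ f : P, if ex (d + f) (2 * d - f) = s then c f else 0 := by
    intro c s
    simp only [← D.mn_smul]
    rw [AddSubmonoidClass.coe_finsetSum, coeff_sum]
    simp [mn, coeff_monomial]
  have hcoeff' : ∀ (c : P → k) (f : P), coeff (ex (d + f) (2 * d - f))
      (∑ f : P, algebraMap k _ (c f) * D.mn _ (D.gtop f.2) 1).1 = c f := by
    intro c f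
    rw [hcoeff, Finset.sum_eq_single f, if_pos rfl]
    · intro g _ hg
      rw [if_neg]
      intro h
      exact hg (Subtype.ext (by simpa using congrArg (fun s => s 0) h))
    · simp
  rw [socle_len (k := k) (ι := P) _ _ ?_ ?_ (fun f => D.mn _ (D.gtop f.2) 1)
    (fun f => D.top_killed f.2) ?_ ?_, Fintype.card_coe]
  · rw [D.irr_eq]
    exact RingHom.ker_isMaximal_of_surjective _ fun c => ⟨algebraMap k _ c, by simp⟩
  · intro h
    refine ⟨constantCoeff h.1, ?_⟩
    rw [D.irr_eq, RingHom.mem_ker]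
    simp
  · intro c hz f
    rw [D.mem_I] at hz
    by_contra h
    have := hz _ (mem_support_iff.2 (by rw [hcoeff']; exact h))
    exact D.top_not_bad f.2 (by simpa using this)
  · intro h hq
    refine ⟨fun f => coeff (ex (d + f) (2 * d - f)) h.1, ?_⟩
    rw [D.mem_I]
    intro s hs
    by_contra hb
    rw [mem_support_iff, AddSubgroupClass.coe_sub, coeff_sub] at hs
    by_cases h2 : ∃ f : P, ex (d + f) (2 * d - f) = s
    · obtain ⟨f, rfl⟩ := h2
      exact hs (by rw [hcoeff', sub_self])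
    · push Not at h2
      rw [hcoeff, Finset.sum_eq_zero (fun f _ => if_neg (h2 f)), zero_sub, neg_ne_zero] at hs
      obtain ⟨g1, g2, g3⟩ := (D.mem_iff _).1 h.2 s (mem_support_iff.2 hs)
      rcases D.max _ _ g1 g2 g3 hb with ⟨f, hf, h3, h4⟩ | ⟨a, ha, h3⟩
      · exact h2 ⟨f, hf⟩ (ex_ext (by simpa using h3.symm) (by simpa using h4.symm))
      · have h4 := hq _ (D.gen_mem ha)
        rw [D.mem_I] at h4
        have h5 := h4 (ex a (d - a) + s) (mem_support_iff.2 (by
          rw [MulMemClass.coe_mul, mn, coeff_monomial_mul, one_mul]; exact hs))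
        simp only [Finsupp.add_apply, ex0, ex1] at h5
        rw [add_comm a, add_comm (d - a)] at h5
        exact h3 h5

lemma closure_eq : AddSubmonoid.closure (A : Set ℕ) = T := by
  apply le_antisymm
  · rw [AddSubmonoid.closure_le]
    intro a ha
    exact ((D.memA a).1 ha).2.1
  · intro x hx
    have hd := D.pos
    have h1 : x + d ≤ d * (x + 1) := by nlinarith
    have h2 := D.cl x (d * (x + 1) - x) hx (D.big _ (by omega))
      ⟨x + 1, by omega⟩
    have h3 : ∀ p ∈ Cl T S d, p.1 ∈ AddSubmonoid.closure (A : Set ℕ) := by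
      intro p hp
      induction hp using AddSubmonoid.closure_induction with
      | mem p hp =>
        obtain ⟨a, ha, rfl⟩ := hp
        exact AddSubmonoid.subset_closure ((D.memA a).2 ha)
      | zero => exact zero_mem _
      | add p q _ _ hp hq => exact add_mem hp hq
    exact h3 _ h2

end Dat

end Pool.Agent.H.MP_4f2529_ag
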